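import Pool.Agent.H90.HW.Stmts2

/-! # Closed subschemes of a projective space (module Conv of the board hwb2) -/

namespace Pool.Agent.H90.HW

open Pool.Agent.H73.Zeta MvPolynomial
open scoped LinearAlgebra.Projectivization

private theorem cv_ne (p : Nat.Primes) {k : ℕ} (hk : k ≠ 0) (m : ℕ) :
    cnt (fun v : Fin m → FF p k => v ≠ 0) = ((p : ℤ) ^ k) ^ m - 1 := by
  classical
  have := Fintype.ofFinite (FF p k)
  have h : cnt (fun v : Fin m → FF p k => v ≠ 0) =
      cnt (fun _ : Fin m → FF p k => True) - cnt (fun v : Fin m → FF p k => v = 0) := by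
    rw [cnt_sum, cnt_sum, cnt_sum, ← Finset.sum_sub_distrib]
    refine Finset.sum_congr rfl fun v _ => ?_
    by_cases h0 : v = 0 <;> simp [h0]
  rw [h, cnt_true, cnt_eq, ← card_FF p hk, Nat.card_fun, Nat.card_eq_fintype_card (α := Fin m),
    Fintype.card_fin]
  push_cast
  rfl

private theorem cv_congr {C : Counts → Prop} (hC : Closed C) {A B : Counts} {N : ℕ} (hN : 0 < N)
    (h : ∀ (p : Nat.Primes) (k : ℕ), k ≠ 0 → ¬ (p : ℕ) ∣ N → A p k = B p k) (hA : Ev C A) : Ev C B := by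
  obtain ⟨M₀, hM₀, hA⟩ := hA
  refine ⟨M₀ * N, by positivity, fun M hM hd => ?_⟩
  refine hC.congr ?_ (hA M hM (dvd_trans (Dvd.intro _ rfl) hd))
  intro p k hk
  unfold restr
  split_ifs with hp
  · rfl
  · exact h p k hk fun h2 => hp (h2.trans (dvd_trans (Dvd.intro_left _ rfl) hd))

private theorem cv_sub {C : Counts → Prop} (hC : Closed C) {A B : Counts} (hA : C A) (hB : C B) :
    C (fun p k => A p k - B p k) :=
  hC.congr (fun p k _ => by ring) (hC.add hA (hC.neg hB))

private theorem cv_pow {C : Counts → Prop} (hC : Closed C) {A : Counts} (hA : C A) (m : ℕ) :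
    C (fun p k => ((p : ℤ) ^ k) ^ m * A p k) := by
  induction m with
  | zero => exact hC.congr (fun p k _ => by ring) hA
  | succ m ih => exact hC.congr (fun p k _ => by ring) (hC.shift ih)

private theorem cv_psi {n : ℕ} (F : Finset (MvPolynomial (Fin (n + 1)) ℤ)) (j : Fin (n + 1)) :
    ∃ ψ : MvPolynomial (Fin n) ℚ →ₐ[ℚ]
      (MvPolynomial (Fin (n + 1)) ℚ ⧸ (idealQ F ⊔ Ideal.span {X j - 1})),
      Function.Surjective ψ ∧ ∀ g, ψ (aeval (j.insertNth 1 X : Fin (n + 1) →
        MvPolynomial (Fin n) ℚ) g) = Ideal.Quotient.mk _ g := by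
  refine ⟨aeval fun i => Ideal.Quotient.mk _ (X (j.succAbove i)), ?_⟩
  have key : ∀ g, (aeval fun i => Ideal.Quotient.mk (idealQ F ⊔ Ideal.span {X j - 1})
      (X (j.succAbove i)) : MvPolynomial (Fin n) ℚ →ₐ[ℚ] _) (aeval (j.insertNth 1 X :
        Fin (n + 1) → MvPolynomial (Fin n) ℚ) g) = Ideal.Quotient.mk _ g := by
    have h : (aeval fun i => Ideal.Quotient.mk (idealQ F ⊔ Ideal.span {X j - 1})
      (X (j.succAbove i)) : MvPolynomial (Fin n) ℚ →ₐ[ℚ] _).comp (aeval (j.insertNth 1 X :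
        Fin (n + 1) → MvPolynomial (Fin n) ℚ)) = Ideal.Quotient.mkₐ ℚ _ := by
      apply MvPolynomial.algHom_ext
      intro i
      rw [AlgHom.comp_apply, aeval_X, Ideal.Quotient.mkₐ_eq_mk]
      rcases j.eq_self_or_eq_succAbove i with rfl | ⟨i', rfl⟩
      · rw [Fin.insertNth_apply_same, map_one, eq_comm, ← map_one (Ideal.Quotient.mk _),
          Ideal.Quotient.eq]
        exact Ideal.mem_sup_right (Ideal.subset_span rfl)
      · rw [Fin.insertNth_apply_succAbove, aeval_X]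
    intro g
    exact DFunLike.congr_fun h g
  refine ⟨fun x => ?_, key⟩
  obtain ⟨g, rfl⟩ := Ideal.Quotient.mk_surjective x
  exact ⟨_, key g⟩

private theorem cv_ne0 {n : ℕ} {f : MvPolynomial (Fin (n + 1)) ℤ} (hf0 : f ≠ 0) {e : ℕ}
    (hf : f.IsHomogeneous e) (j : Fin (n + 1)) :
    aeval (j.insertNth 1 X : Fin (n + 1) → MvPolynomial (Fin n) ℚ)
      (MvPolynomial.map (Int.castRingHom ℚ) f) ≠ 0 := by
  intro h0
  have h1 : MvPolynomial.map (Int.castRingHom ℚ) f * X j ≠ 0 := by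
    refine mul_ne_zero (fun h => hf0 ?_) (X_ne_zero j)
    exact MvPolynomial.map_injective (Int.castRingHom ℚ) Int.cast_injective
      (by rw [h, map_zero])
  obtain ⟨x, hx⟩ : ∃ x : Fin (n + 1) → ℚ, eval x (MvPolynomial.map (Int.castRingHom ℚ) f *
      X j) ≠ 0 := by
    by_contra hcon
    push Not at hcon
    exact h1 (MvPolynomial.funext fun x => by rw [hcon x, map_zero])
  rw [map_mul, eval_X] at hx
  have hx1 := left_ne_zero_of_mul hx
  have hx2 := right_ne_zero_of_mul hx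
  have h2 := congrArg (eval fun i : Fin n => (x j)⁻¹ * x (j.succAbove i)) h0
  rw [map_zero, aeval_def, eval₂_map] at h2
  have h3 : eval (fun i : Fin n => (x j)⁻¹ * x (j.succAbove i)) (eval₂ ((algebraMap ℚ
      (MvPolynomial (Fin n) ℚ)).comp (Int.castRingHom ℚ)) (j.insertNth 1 X) f) =
      aeval ((x j)⁻¹ • x) f := by
    have h4 : (eval (fun i : Fin n => (x j)⁻¹ * x (j.succAbove i))).comp
        (eval₂Hom ((algebraMap ℚ (MvPolynomial (Fin n) ℚ)).comp (Int.castRingHom ℚ))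
          (j.insertNth 1 X : Fin (n + 1) → MvPolynomial (Fin n) ℚ)) =
        (aeval ((x j)⁻¹ • x) : MvPolynomial (Fin (n + 1)) ℤ →ₐ[ℤ] ℚ).toRingHom := by
      apply MvPolynomial.ringHom_ext
      · intro r
        simp
      · intro i
        rcases j.eq_self_or_eq_succAbove i with rfl | ⟨i', rfl⟩
        · simp [hx2]
        · simp
    exact DFunLike.congr_fun h4 f
  rw [h3, aeval_smul hf] at h2
  rcases mul_eq_zero.1 h2 with h5 | h5
  · exact pow_ne_zero e (inv_ne_zero hx2) h5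
  · apply hx1
    rw [eval_map]
    exact h5

private theorem cv_le {n : ℕ} {F : Finset (MvPolynomial (Fin (n + 1)) ℤ)}
    {f : MvPolynomial (Fin (n + 1)) ℤ} (hfF : f ∈ F) (hf0 : f ≠ 0) {e : ℕ}
    (hf : f.IsHomogeneous e) (j : Fin (n + 1)) :
    ringKrullDim (MvPolynomial (Fin (n + 1)) ℚ ⧸ (idealQ F ⊔ Ideal.span {X j - 1})) + 1 ≤ n := by
  obtain ⟨ψ, hψ, hψ2⟩ := cv_psi F j
  have hg := cv_ne0 hf0 hf j
  have h0 := hψ2 (MvPolynomial.map (Int.castRingHom ℚ) f)
  generalize aeval (j.insertNth 1 X : Fin (n + 1) → MvPolynomial (Fin n) ℚ)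
      (MvPolynomial.map (Int.castRingHom ℚ) f) = g at hg h0
  have h0' : ψ g = 0 := by
    rw [h0, Ideal.Quotient.eq_zero_iff_mem]
    exact Ideal.mem_sup_left (Ideal.subset_span ⟨f, hfF, rfl⟩)
  have h1 : ringKrullDim (MvPolynomial (Fin n) ℚ ⧸ Ideal.span {g}) + 1 ≤
      ringKrullDim (MvPolynomial (Fin n) ℚ) :=
    ringKrullDim_quotient_succ_le_of_nonZeroDivisor (mem_nonZeroDivisors_of_ne_zero hg)
  have h2 : ringKrullDim (MvPolynomial (Fin (n + 1)) ℚ ⧸ (idealQ F ⊔ Ideal.span {X j - 1})) ≤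
      ringKrullDim (MvPolynomial (Fin n) ℚ ⧸ Ideal.span {g}) := by
    refine ringKrullDim_le_of_surjective (Ideal.Quotient.lift (Ideal.span {g}) ψ.toRingHom
      fun a ha => ?_) ?_
    · obtain ⟨b, rfl⟩ := Ideal.mem_span_singleton'.1 ha
      change ψ (b * g) = 0
      rw [map_mul, h0', mul_zero]
    · exact Ideal.Quotient.lift_surjective_of_surjective _ _ hψ
  have h3 : ringKrullDim (MvPolynomial (Fin n) ℚ) = n := by
    rw [MvPolynomial.ringKrullDim_of_isNoetherianRing, ringKrullDim_eq_zero_of_field]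
    simp
  rw [h3] at h1
  exact (add_le_add h2 le_rfl).trans h1

private theorem cv_cancel {x : WithBot ℕ∞} {d : ℕ} (h : x + 1 ≤ ((d + 1 : ℕ) : WithBot ℕ∞)) :
    x ≤ d := by
  induction x with
  | bot => exact bot_le
  | coe x =>
    have h1 : x + 1 ≤ ((d + 1 : ℕ) : ℕ∞) := by exact_mod_cast h
    have h2 : x ≤ (d : ℕ∞) := by
      push_cast at h1
      exact (ENat.add_le_add_iff_right ENat.one_ne_top).1 h1
    exact_mod_cast h2

theorem conv (h_Ev : SEvClosed) : SConv := by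
  intro C hC d hD F hF N hN
  have hE : Closed (Ev C) := h_Ev C hC
  by_cases h0 : ∀ f ∈ F, f = 0
  · have hpt : Ev C (projCount (∅ : Finset (MvPolynomial (Fin (0 + 1)) ℤ)) 1) := by
      refine hD 0 ∅ (fun f hf => absurd hf (Finset.notMem_empty f)) fun j => ?_
      obtain ⟨ψ, hψ, _⟩ := cv_psi (∅ : Finset (MvPolynomial (Fin (0 + 1)) ℤ)) j
      refine (ringKrullDim_le_of_surjective ψ.toRingHom hψ).trans ?_
      rw [MvPolynomial.ringKrullDim_of_isNoetherianRing, ringKrullDim_eq_zero_of_field]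
      simp
    have hone : Ev C (fun _ _ => 1) := by
      apply hE.div
      refine hE.congr (fun p k hk => ?_) (cv_sub hE (cv_pow hE hpt 1) hpt)
      have h1 := proj_formula (F := (∅ : Finset (MvPolynomial (Fin (0 + 1)) ℤ)))
        (fun f hf => absurd hf (Finset.notMem_empty f)) 1 p hk
      rw [if_neg (fun h => p.2.one_lt.ne' (Nat.dvd_one.1 h))] at h1
      have h2 : cnt (fun v : Fin (0 + 1) → FF p k => v ≠ 0 ∧
          ∀ f ∈ (∅ : Finset (MvPolynomial (Fin (0 + 1)) ℤ)), MvPolynomial.aeval v f = 0) =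
          cnt (fun v : Fin (0 + 1) → FF p k => v ≠ 0) :=
        cnt_congr fun v => ⟨fun h => h.1, fun h => ⟨h, fun f hf =>
          absurd hf (Finset.notMem_empty f)⟩⟩
      rw [h2, cv_ne p hk] at h1
      linear_combination h1
    apply hE.div
    refine cv_congr hC hN (fun p k hk hp => ?_)
      (cv_sub hE (cv_pow hE hone (d + 1 + 1)) hone)
    have h1 := proj_formula hF N p hk
    rw [if_neg hp] at h1
    have h2 : cnt (fun v : Fin (d + 1 + 1) → FF p k => v ≠ 0 ∧
        ∀ f ∈ F, MvPolynomial.aeval v f = 0) =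
        cnt (fun v : Fin (d + 1 + 1) → FF p k => v ≠ 0) :=
      cnt_congr fun v => ⟨fun h => h.1, fun h => ⟨h, fun f hf => by rw [h0 f hf, map_zero]⟩⟩
    rw [h2, cv_ne p hk] at h1
    linear_combination -h1
  · push Not at h0
    obtain ⟨f, hfF, hf0⟩ := h0
    obtain ⟨e, he⟩ := hF f hfF
    have h1 : Ev C (projCount F 1) := by
      refine hD (d + 1) F hF fun j => ?_
      exact cv_cancel (cv_le hfF hf0 he j)
    refine cv_congr hC hN (fun p k _ hp => ?_) h1
    unfold projCount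
    rw [if_neg hp, if_neg (fun h => p.2.one_lt.ne' (Nat.dvd_one.1 h))]

end Pool.Agent.H90.HW
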