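import Pool.Agent.H90.HW.Stmts2

/-! # Homogenisation (module Homog of the board hwb2) -/

namespace Pool.Agent.H90.HW

open MvPolynomial

theorem homog : SHomog := by
  intro n m c R f
  induction f using MvPolynomial.induction_on with
  | C a => exact ⟨0, C a, fun S _ u y _ => by simp⟩
  | add p q hp hq =>
    obtain ⟨e1, f1, h1⟩ := hp
    obtain ⟨e2, f2, h2⟩ := hq
    refine ⟨e1 + e2, c ^ e2 * f1 + c ^ e1 * f2, fun S _ u y h => ?_⟩
    rw [map_add, map_mul, map_mul, map_pow, map_pow, h1 S u y h, h2 S u y h, map_add]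
    ring
  | mul_X p i hp =>
    obtain ⟨e1, f1, h1⟩ := hp
    refine ⟨e1 + 1, f1 * R i, fun S _ u y h => ?_⟩
    rw [map_mul, h1 S u y h, ← h i, map_mul, aeval_X]
    ring

end Pool.Agent.H90.HW
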